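import Pool.Agent.Q215.Cone.Conc

open MeasureTheory Filter Topology
open scoped Pointwise

namespace Pool.Agent.Results.MP_9a1bf0_pr.LimitMeanLt

/-- The uniform distribution `σ_{d-1}` on the unit sphere of `ℝ^d` (the normalised surface measure),
regarded as a measure on `ℝ^d`. -/
noncomputable def sigma (d : ℕ) : Measure (EuclideanSpace ℝ (Fin d)) :=
  (((volume : Measure (EuclideanSpace ℝ (Fin d))).toSphere Set.univ)⁻¹ •
    (volume : Measure (EuclideanSpace ℝ (Fin d))).toSphere).map Subtype.val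

/-- The positive hull of `x_1, ..., x_d`. -/
def pos {d : ℕ} (x : Fin d → EuclideanSpace ℝ (Fin d)) : Set (EuclideanSpace ℝ (Fin d)) :=
  {y | ∃ c : Fin d → ℝ, (∀ i, 0 ≤ c i) ∧ y = ∑ i, c i • x i}

/-- The solid angle `α(C) = σ_{d-1}(C ∩ S^{d-1})`. -/
noncomputable def angle {d : ℕ} (C : Set (EuclideanSpace ℝ (Fin d))) : ℝ :=
  (sigma d (C ∩ Metric.sphere 0 1)).toReal

/-- The law of `(U_1, ..., U_d)`, independent with law `σ_{d-1}`. -/
noncomputable def law (d : ℕ) : Measure (Fin d → EuclideanSpace ℝ (Fin d)) :=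
  Measure.pi fun _ => sigma d

/-- `2^d α_d = 2^d α(pos(U_1, ..., U_d))` converges in distribution to the law `ν` along the
sequence of dimensions `φ 0, φ 1, ...`. -/
def ConvergesInLaw (φ : ℕ → ℕ) (ν : Measure ℝ) : Prop :=
  ∀ f : BoundedContinuousFunction ℝ ℝ,
    Tendsto (fun k => ∫ U, f ((2 : ℝ) ^ (φ k) * angle (pos U)) ∂(law (φ k))) atTop
      (𝓝 (∫ x, f x ∂ν))

open Pool.Agent.Q215.Cone

section Sphere

variable {n : ℕ}

lemma map_apply_sphere {A : Set (E n)} (hA : MeasurableSet A) :
    ((volume : Measure (E n)).toSphere.map Subtype.val) A =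
      Module.finrank ℝ (E n) * volume (Set.Ioo (0 : ℝ) 1 • (A ∩ Metric.sphere 0 1)) := by
  rw [Measure.map_apply measurable_subtype_coe hA,
    Measure.toSphere_apply' _ (measurable_subtype_coe hA), Subtype.image_preimage_coe,
    Set.inter_comm]

lemma sigma_eq : sigma n = ((volume : Measure (E n)).toSphere Set.univ)⁻¹ •
    ((volume : Measure (E n)).toSphere.map Subtype.val) := by
  unfold sigma
  rw [Measure.map_smul]

theorem unif (hn : 0 < n) : Unif n (sigma n) := by
  have : Nonempty (Fin n) := ⟨⟨0, hn⟩⟩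
  have hfin : (volume : Measure (E n)).toSphere Set.univ ≠ 0 := by
    rw [Ne, Measure.measure_univ_eq_zero]
    exact Measure.toSphere_ne_zero _
  have hfin2 : (volume : Measure (E n)).toSphere Set.univ ≠ ⊤ := measure_ne_top _ _
  refine ⟨?_, ?_, ?_, ?_⟩
  · have h1 : IsProbabilityMeasure (((volume : Measure (E n)).toSphere Set.univ)⁻¹ •
        (volume : Measure (E n)).toSphere) := by
      refine ⟨?_⟩
      rw [Measure.smul_apply, smul_eq_mul, ENNReal.inv_mul_cancel hfin hfin2]
    exact Measure.isProbabilityMeasure_map measurable_subtype_coe.aemeasurable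
  · unfold sigma
    rw [ae_map_iff measurable_subtype_coe.aemeasurable]
    · exact Filter.Eventually.of_forall fun x => mem_sphere_zero_iff_norm.1 x.2
    · exact (isClosed_eq continuous_norm continuous_const).measurableSet
  · intro O
    refine ⟨O.continuous.measurable, ?_⟩
    rw [sigma_eq, Measure.map_smul]
    congr 1
    ext A hA
    rw [Measure.map_apply O.continuous.measurable hA,
      map_apply_sphere (O.continuous.measurable hA), map_apply_sphere hA]
    congr 1
    have h1 : Set.Ioo (0 : ℝ) 1 • (O ⁻¹' A ∩ Metric.sphere 0 1) =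
        O ⁻¹' (Set.Ioo (0 : ℝ) 1 • (A ∩ Metric.sphere 0 1)) := by
      ext x
      simp only [Set.mem_smul, Set.mem_inter_iff, Set.mem_preimage, mem_sphere_zero_iff_norm]
      constructor
      · rintro ⟨r, hr, y, ⟨hy, hy1⟩, rfl⟩
        exact ⟨r, hr, O y, ⟨hy, by rw [O.norm_map]; exact hy1⟩, by rw [map_smul]⟩
      · rintro ⟨r, hr, y, ⟨hy, hy1⟩, hxy⟩
        refine ⟨r, hr, O.symm y, ⟨?_, ?_⟩, ?_⟩
        · rw [O.apply_symm_apply]; exact hy
        · rw [O.symm.norm_map]; exact hy1
        · rw [← map_smul, hxy, O.symm_apply_apply]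
    rw [h1]
    exact O.measurePreserving.measure_preimage_emb O.toHomeomorph.measurableEmbedding _
  · intro w hw
    have hA : MeasurableSet {x : E n | inner ℝ w x = (0 : ℝ)} :=
      (isClosed_eq (by fun_prop) continuous_const).measurableSet
    rw [sigma_eq, Measure.smul_apply, map_apply_sphere hA]
    have h0 : (volume : Measure (E n)) (Set.Ioo (0 : ℝ) 1 •
        ({x : E n | inner ℝ w x = (0 : ℝ)} ∩ Metric.sphere 0 1)) = 0 := by
      have hK : (ℝ ∙ w)ᗮ ≠ ⊤ := by
        intro htop
        have : w ∈ (ℝ ∙ w)ᗮ := htop ▸ Submodule.mem_top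
        rw [Submodule.mem_orthogonal_singleton_iff_inner_right] at this
        exact hw (inner_self_eq_zero.1 this)
      refine measure_mono_null ?_ (Measure.addHaar_submodule volume _ hK)
      rintro _ ⟨r, _, y, ⟨hy, _⟩, rfl⟩
      rw [SetLike.mem_coe, Submodule.mem_orthogonal_singleton_iff_inner_right]
      simp only [inner_smul_right]
      rw [show inner ℝ w y = (0 : ℝ) from hy, mul_zero]
    rw [h0, mul_zero, smul_zero]

/-- Almost surely the solid angle is the one expressed through determinants. -/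
theorem angle_eq (hn : 0 < n) : ∀ᵐ U ∂(law n), angle (pos U) = al (sigma n) U := by
  have h := unif hn
  filter_upwards [h.ae_li n le_rfl] with U hU
  unfold angle al
  congr 1
  have h1 : {ξ | (U, ξ) ∈ MM n} = pos U := by
    ext ξ
    exact (mem_posHull_iff hU ξ).symm
  rw [h1]
  refine measure_congr ?_
  filter_upwards [h.sph] with x hx
  refine propext ⟨fun hh => hh.1, fun hh => ⟨hh, mem_sphere_zero_iff_norm.2 hx⟩⟩

end Sphere

theorem trunc_limit {φ : ℕ → ℕ} (hφ : StrictMono φ) {ν : Measure ℝ}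
    (hν : ConvergesInLaw φ ν) (K : ℝ) (hK : 0 ≤ K) : ∫ x, trunc K hK x ∂ν ≤ 7 / 10 := by
  have hlim := hν (trunc K hK)
  have hub : ∀ᶠ k in atTop, ∫ U, trunc K hK ((2 : ℝ) ^ (φ k) * angle (pos U)) ∂(law (φ k)) ≤
      100 / 99 * (1 - (1 - 1 / (φ k : ℝ)) * (25 / 81)) + 20000 * K / (φ k : ℝ) := by
    filter_upwards [eventually_ge_atTop 1] with k hk
    have hn : 0 < φ k := lt_of_lt_of_le (by omega) (hφ.le_apply (x := k))
    have h1 : ∫ U, trunc K hK ((2 : ℝ) ^ (φ k) * angle (pos U)) ∂(law (φ k)) =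
        ∫ U, trunc K hK ((2 : ℝ) ^ (φ k) * al (sigma (φ k)) U) ∂(law (φ k)) := by
      refine integral_congr_ae ?_
      filter_upwards [angle_eq hn] with U hU
      rw [hU]
    rw [h1]
    exact (unif hn).trunc_le hn K hK
  have hinf : Tendsto (fun k => (φ k : ℝ)) atTop atTop :=
    tendsto_natCast_atTop_atTop.comp hφ.tendsto_atTop
  have hlim2 : Tendsto (fun k => 100 / 99 * (1 - (1 - 1 / (φ k : ℝ)) * (25 / 81)) +
      20000 * K / (φ k : ℝ)) atTop (𝓝 (100 / 99 * (1 - (1 - 0) * (25 / 81)) + 0)) := by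
    have t1 : Tendsto (fun k => 1 / (φ k : ℝ)) atTop (𝓝 0) :=
      (tendsto_const_nhds (x := (1 : ℝ))).div_atTop hinf
    have t2 : Tendsto (fun k => 20000 * K / (φ k : ℝ)) atTop (𝓝 0) :=
      (tendsto_const_nhds (x := 20000 * K)).div_atTop hinf
    exact ((((t1.const_sub 1).mul_const _).const_sub 1).const_mul _).add t2
  have := le_of_tendsto_of_tendsto hlim hlim2 hub
  refine this.trans ?_
  norm_num

/-- The random angle is a genuine random variable on a probability space (first part). Every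
subsequential limit in distribution `X` of `2^d α_d` satisfies `E[X] ≤ 7/10` (second part); in
particular `2^d α_d` does not converge in distribution to a random variable `X ≥ 0` with
`E[X] = 1` (third part). -/
theorem result :
    (∀ d : ℕ, 0 < d → IsProbabilityMeasure (law d) ∧
      AEMeasurable (fun U : Fin d → EuclideanSpace ℝ (Fin d) => angle (pos U)) (law d)) ∧
    (∀ φ : ℕ → ℕ, StrictMono φ → ∀ ν : Measure ℝ, IsProbabilityMeasure ν →
      ConvergesInLaw φ ν → ∫⁻ x, ENNReal.ofReal x ∂ν ≤ ENNReal.ofReal (7 / 10)) ∧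
    ¬ ∃ ν : Measure ℝ, IsProbabilityMeasure ν ∧ ν (Set.Iio 0) = 0 ∧
      ConvergesInLaw (fun d => d) ν ∧ ∫ x, x ∂ν = 1 := by
  have hfirst : ∀ φ : ℕ → ℕ, StrictMono φ → ∀ ν : Measure ℝ, IsProbabilityMeasure ν →
      ConvergesInLaw φ ν → ∫⁻ x, ENNReal.ofReal x ∂ν ≤ ENNReal.ofReal (7 / 10) := by
    intro φ hφ ν hprob hν
    have hbound : ∀ N : ℕ, ∫⁻ x, ENNReal.ofReal (min (max x 0) N) ∂ν ≤
        ENNReal.ofReal (7 / 10) := by
      intro N
      have h1 := trunc_limit hφ hν (N : ℝ) (Nat.cast_nonneg N)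
      have h2 : Integrable (fun x => trunc (N : ℝ) (Nat.cast_nonneg N) x) ν :=
        (trunc (N : ℝ) (Nat.cast_nonneg N)).integrable ν
      have h3 := ofReal_integral_eq_lintegral_ofReal h2
        (Filter.Eventually.of_forall fun x => by
          change (0 : ℝ) ≤ min (max x 0) N
          exact le_min (le_max_right _ _) (Nat.cast_nonneg N))
      simp only [trunc_apply] at h3
      rw [← h3]
      exact ENNReal.ofReal_le_ofReal h1
    have hmono : ∀ x : ℝ, ENNReal.ofReal x ≤
        liminf (fun N : ℕ => ENNReal.ofReal (min (max x 0) N)) atTop := by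
      intro x
      have h1 : Tendsto (fun N : ℕ => ENNReal.ofReal (min (max x 0) N)) atTop
          (𝓝 (ENNReal.ofReal x)) := by
        refine tendsto_const_nhds.congr' ?_
        obtain ⟨N0, hN0⟩ := exists_nat_ge (max x 0)
        filter_upwards [eventually_ge_atTop N0] with N hN
        have : max x 0 ≤ N := hN0.trans (by exact_mod_cast hN)
        rw [min_eq_left this]
        by_cases hx : 0 ≤ x
        · rw [max_eq_left hx]
        · push Not at hx
          rw [max_eq_right hx.le, ENNReal.ofReal_of_nonpos hx.le, ENNReal.ofReal_zero]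
      rw [h1.liminf_eq]
    calc ∫⁻ x, ENNReal.ofReal x ∂ν ≤
        ∫⁻ x, liminf (fun N : ℕ => ENNReal.ofReal (min (max x 0) N)) atTop ∂ν :=
          lintegral_mono hmono
      _ ≤ liminf (fun N : ℕ => ∫⁻ x, ENNReal.ofReal (min (max x 0) N) ∂ν) atTop :=
          lintegral_liminf_le fun N => by fun_prop
      _ ≤ ENNReal.ofReal (7 / 10) := by
          refine liminf_le_of_le (by isBoundedDefault) fun b hb => ?_
          obtain ⟨N, hN⟩ := hb.exists
          exact hN.trans (hbound N)
  refine ⟨fun d hd => ?_, hfirst, ?_⟩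
  · have := (unif hd).prob
    refine ⟨by unfold law; infer_instance, ?_⟩
    exact ⟨al (sigma d), measurable_al, angle_eq hd⟩
  rintro ⟨ν, hprob, hpos, hν, hmean⟩
  have h1 := hfirst (fun d => d) strictMono_id ν hprob hν
  have hnn : 0 ≤ᵐ[ν] fun x => x := by
    rw [EventuallyLE, ae_iff]
    refine measure_mono_null ?_ hpos
    intro x hx
    simpa using hx
  have h2 : ∫ x, x ∂ν = (∫⁻ x, ENNReal.ofReal x ∂ν).toReal :=
    integral_eq_lintegral_of_nonneg_ae hnn (by fun_prop)
  rw [hmean] at h2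
  have h3 : (∫⁻ x, ENNReal.ofReal x ∂ν).toReal ≤ 7 / 10 :=
    ENNReal.toReal_le_of_le_ofReal (by norm_num) h1
  rw [← h2] at h3
  norm_num at h3

end Pool.Agent.Results.MP_9a1bf0_pr.LimitMeanLt
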